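import Mathlib
import Pool.Agent.H67.TCT.Main
import Pool.Agent.H67.TCT.Constr

/-!
# Two-coloured 3-graphs without K_4^(3): the exact maximum under the sparse pair condition

`V = A ⊔ B` with both `A` and `B` independent in the 3-graph `H`.
-/

namespace Pool.Agent.Results.MP_466853_co.AlternatingWalks

open Finset

/-- every edge has three vertices, at least one in `A` and at least one outside `A` -/
def TwoColoured {V : Type} [DecidableEq V] (A : Finset V) (H : Finset (Finset V)) : Prop :=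
  ∀ e ∈ H, e.card = 3 ∧ (∃ x ∈ e, x ∈ A) ∧ (∃ x ∈ e, x ∉ A)

/-- every four vertices span a triple that is not an edge -/
def K43Free {V : Type} [DecidableEq V] (H : Finset (Finset V)) : Prop :=
  ∀ Q : Finset V, Q.card = 4 → ∃ e ∈ Q.powersetCard 3, e ∉ H

/-- no closed tight walk of length `2 p > 0` in `H` that alternates between `A` and the
complement of `A` (for `p = 2` these walks are exactly the copies of `K_4^(3)`) -/
def NoClosedAltWalk {V : Type} [DecidableEq V] (A : Finset V) (H : Finset (Finset V)) : Prop :=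
  ¬ ∃ (p : ℕ) (v : ℕ → V), 0 < p ∧ (∀ i, v (i + 2 * p) = v i) ∧
    (∀ i, v (2 * i) ∈ A ∧ v (2 * i + 1) ∉ A) ∧ ∀ i, {v i, v (i + 1), v (i + 2)} ∈ H

/-- the sparse pair condition: every nonempty bipartite graph `S` between `A` and its complement
contains a pair `(a, b)` which is joined by edges of `H` to at most
`max (d_S a) (d_S b) - 1` other pairs of `S`; here `(a, b)` is joined to `(a, b')` if
`{b, a, b'} ∈ H` and to `(a', b)` if `{a, b, a'} ∈ H` -/
def SparsePairs {V : Type} [DecidableEq V] (A : Finset V) (H : Finset (Finset V)) : Prop :=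
  ∀ S : Finset (V × V), S.Nonempty → (∀ c ∈ S, c.1 ∈ A ∧ c.2 ∉ A) →
    ∃ c ∈ S,
      (S.filter (fun d => d.1 = c.1 ∧ d.2 ≠ c.2 ∧ {c.2, c.1, d.2} ∈ H)).card +
      (S.filter (fun d => d.2 = c.2 ∧ d.1 ≠ c.1 ∧ {c.1, c.2, d.1} ∈ H)).card ≤
      max (S.filter (fun d => d.1 = c.1 ∧ d.2 ≠ c.2)).card
        (S.filter (fun d => d.2 = c.2 ∧ d.1 ≠ c.1)).card

/-- the extremal number `C(m+k-1,2) + C(m+k-3,2) + ...` with `min m k` summands -/
def ex (m k : ℕ) : ℕ := ∑ i ∈ range (min m k), (m + k - 1 - 2 * i).choose 2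

theorem sparse_of_noWalk {V : Type} [Fintype V] [DecidableEq V] (A : Finset V)
    (H : Finset (Finset V)) (hW : NoClosedAltWalk A H) : SparsePairs A H := by
  intro S hS hSA
  obtain ⟨c, hc, hgood⟩ := Pool.Agent.H67.TCT.good_of_noWalk A H hW S hSA hS
  refine ⟨c, hc, ?_⟩
  rcases hgood with hg | hg
  · have h0 : S.filter (fun d => d.1 = c.1 ∧ d.2 ≠ c.2 ∧ {c.2, c.1, d.2} ∈ H) = ∅ := by
      rw [filter_eq_empty_iff]
      rintro ⟨d1, d2⟩ hd ⟨h1, -, h3⟩
      simp only at h1 h3
      subst h1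
      exact hg d2 hd h3
    rw [h0, card_empty, zero_add]
    refine le_trans (card_le_card ?_) (le_max_right _ _)
    intro d hd
    rw [mem_filter] at hd ⊢
    exact ⟨hd.1, hd.2.1, hd.2.2.1⟩
  · have h0 : S.filter (fun d => d.2 = c.2 ∧ d.1 ≠ c.1 ∧ {c.1, c.2, d.1} ∈ H) = ∅ := by
      rw [filter_eq_empty_iff]
      rintro ⟨d1, d2⟩ hd ⟨h1, -, h3⟩
      simp only at h1 h3
      subst h1
      exact hg d1 hd h3
    rw [h0, card_empty, add_zero]
    refine le_trans (card_le_card ?_) (le_max_left _ _)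
    intro d hd
    rw [mem_filter] at hd ⊢
    exact ⟨hd.1, hd.2.1, hd.2.2.1⟩

theorem k43Free_of_sparse {V : Type} [Fintype V] [DecidableEq V] (A : Finset V)
    (H : Finset (Finset V)) (hT : TwoColoured A H) (hS : SparsePairs A H) : K43Free H := by
  classical
  intro Q hQ
  by_contra hcon
  push Not at hcon
  have hcon' : ∀ e ⊆ Q, e.card = 3 → e ∈ H := fun e he h3 =>
    hcon e (mem_powersetCard.2 ⟨he, h3⟩)
  -- two vertices on each side
  have hA : (Q.filter (· ∈ A)).card ≤ 2 := by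
    by_contra h
    push Not at h
    obtain ⟨e, he, h3⟩ := exists_subset_card_eq (s := Q.filter (· ∈ A)) (n := 3) h
    have h1 := hT e (hcon' e (he.trans (filter_subset _ _)) h3)
    obtain ⟨x, hx, hxA⟩ := h1.2.2
    exact hxA (mem_filter.1 (he hx)).2
  have hB : (Q.filter (· ∉ A)).card ≤ 2 := by
    by_contra h
    push Not at h
    obtain ⟨e, he, h3⟩ := exists_subset_card_eq (s := Q.filter (· ∉ A)) (n := 3) h
    have h1 := hT e (hcon' e (he.trans (filter_subset _ _)) h3)
    obtain ⟨x, hx, hxA⟩ := h1.2.1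
    exact (mem_filter.1 (he hx)).2 hxA
  have hsum := card_filter_add_card_filter_not (s := Q) (p := (· ∈ A))
  have hA2 : (Q.filter (· ∈ A)).card = 2 := by omega
  have hB2 : (Q.filter (· ∉ A)).card = 2 := by omega
  set S : Finset (V × V) := (Q.filter (· ∈ A)) ×ˢ (Q.filter (· ∉ A)) with hSdef
  obtain ⟨c, hc, hle⟩ := hS S (by
    rw [hSdef]
    apply Nonempty.product
    · rw [← card_pos]; omega
    · rw [← card_pos]; omega) (by
    intro c hc
    rw [hSdef, mem_product, mem_filter, mem_filter] at hc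
    exact ⟨hc.1.2, hc.2.2⟩)
  rw [hSdef, mem_product] at hc
  obtain ⟨hc1, hc2⟩ := hc
  obtain ⟨a', ha', haa⟩ : ∃ a' ∈ Q.filter (· ∈ A), a' ≠ c.1 :=
    exists_mem_ne (by omega) c.1
  obtain ⟨b', hb', hbb⟩ : ∃ b' ∈ Q.filter (· ∉ A), b' ≠ c.2 :=
    exists_mem_ne (by omega) c.2
  have hcA := (mem_filter.1 hc1).2
  have hcB := (mem_filter.1 hc2).2
  have ha'A := (mem_filter.1 ha').2
  have hb'B := (mem_filter.1 hb').2
  have hne1 : c.2 ≠ c.1 := fun h => hcB (h ▸ hcA)
  have hne2 : c.1 ≠ b' := fun h => hb'B (h ▸ hcA)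
  have hne3 : c.2 ≠ a' := fun h => hcB (h ▸ ha'A)
  have h1 : 1 ≤ (S.filter (fun d => d.1 = c.1 ∧ d.2 ≠ c.2 ∧ {c.2, c.1, d.2} ∈ H)).card := by
    rw [Nat.one_le_iff_ne_zero, Ne, card_eq_zero, ← Ne, ← nonempty_iff_ne_empty]
    refine ⟨(c.1, b'), ?_⟩
    rw [mem_filter, hSdef, mem_product]
    refine ⟨⟨hc1, hb'⟩, rfl, hbb, hcon' _ ?_ ?_⟩
    · intro x hx
      simp only [mem_insert, mem_singleton] at hx
      rcases hx with rfl | rfl | rfl
      · exact (mem_filter.1 hc2).1
      · exact (mem_filter.1 hc1).1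
      · exact (mem_filter.1 hb').1
    · exact card_eq_three.2 ⟨_, _, _, hne1, hbb.symm, hne2, rfl⟩
  have h2 : 1 ≤ (S.filter (fun d => d.2 = c.2 ∧ d.1 ≠ c.1 ∧ {c.1, c.2, d.1} ∈ H)).card := by
    rw [Nat.one_le_iff_ne_zero, Ne, card_eq_zero, ← Ne, ← nonempty_iff_ne_empty]
    refine ⟨(a', c.2), ?_⟩
    rw [mem_filter, hSdef, mem_product]
    refine ⟨⟨ha', hc2⟩, rfl, haa, hcon' _ ?_ ?_⟩
    · intro x hx
      simp only [mem_insert, mem_singleton] at hx
      rcases hx with rfl | rfl | rfl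
      · exact (mem_filter.1 hc1).1
      · exact (mem_filter.1 hc2).1
      · exact (mem_filter.1 ha').1
    · exact card_eq_three.2 ⟨_, _, _, hne1.symm, haa.symm, hne3, rfl⟩
  have h3 : (S.filter (fun d => d.1 = c.1 ∧ d.2 ≠ c.2)).card ≤ 1 := by
    have hsub : (S.filter (fun d => d.1 = c.1 ∧ d.2 ≠ c.2)) ⊆
        ((Q.filter (· ∉ A)).erase c.2).image (fun b => (c.1, b)) := by
      rintro ⟨d1, d2⟩ hd
      rw [mem_filter, hSdef, mem_product] at hd
      rw [mem_image]
      exact ⟨d2, mem_erase.2 ⟨hd.2.2, hd.1.2⟩, by rw [← hd.2.1]⟩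
    refine (card_le_card hsub).trans (card_image_le.trans ?_)
    rw [card_erase_of_mem hc2, hB2]
  have h4 : (S.filter (fun d => d.2 = c.2 ∧ d.1 ≠ c.1)).card ≤ 1 := by
    have hsub : (S.filter (fun d => d.2 = c.2 ∧ d.1 ≠ c.1)) ⊆
        ((Q.filter (· ∈ A)).erase c.1).image (fun a => (a, c.2)) := by
      rintro ⟨d1, d2⟩ hd
      rw [mem_filter, hSdef, mem_product] at hd
      rw [mem_image]
      exact ⟨d1, mem_erase.2 ⟨hd.2.2, hd.1.1⟩, by rw [← hd.2.1]⟩
    refine (card_le_card hsub).trans (card_image_le.trans ?_)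
    rw [card_erase_of_mem hc1, hA2]
  have := le_trans (add_le_add h1 h2) (hle.trans (max_le h3 h4))
  omega

theorem ex_bounds (n : ℕ) :
    8 * (∑ i ∈ range (n / 2), (n - 1 - 2 * i).choose 2) ≤ 4 * n.choose 3 + (n - 1) ^ 2 ∧
    4 * n.choose 3 ≤ 8 * (∑ i ∈ range (n / 2), (n - 1 - 2 * i).choose 2) := by
  induction n using Nat.strong_induction_on with
  | _ n ih =>
    rcases Nat.lt_or_ge n 3 with h | h
    · interval_cases n <;> decide
    · obtain ⟨l, rfl⟩ : ∃ l, n = l + 3 := ⟨n - 3, by omega⟩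
      have h1 := ih (l + 1) (by omega)
      have e : (l + 3) / 2 = (l + 1) / 2 + 1 := by omega
      rw [e, sum_range_succ']
      have e2 : ∑ i ∈ range ((l + 1) / 2), (l + 3 - 1 - 2 * (i + 1)).choose 2 =
          ∑ i ∈ range ((l + 1) / 2), (l + 1 - 1 - 2 * i).choose 2 := by
        refine sum_congr rfl fun i _ => ?_
        congr 1
        omega
      rw [e2]
      have e3 : l + 3 - 1 - 2 * 0 = l + 2 := by omega
      have e4 : l + 3 - 1 = l + 2 := by omega
      have e5 : l + 1 - 1 = l := by omega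
      rw [e3, e4]
      rw [e5] at h1 ⊢
      have c1 : (l + 3).choose 3 = (l + 2).choose 2 + (l + 1).choose 2 + (l + 1).choose 3 := by
        rw [Nat.choose_succ_succ' (l + 2) 2, Nat.choose_succ_succ' (l + 1) 2]
        ring
      have c2 : 2 * (l + 2).choose 2 = (l + 2) * (l + 1) := by
        rw [Nat.choose_two_right]
        have := Nat.even_mul_pred_self (l + 2)
        rw [Nat.mul_div_cancel' this.two_dvd]
        rfl
      have c3 : 2 * (l + 1).choose 2 = (l + 1) * l := by
        rw [Nat.choose_two_right]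
        have := Nat.even_mul_pred_self (l + 1)
        rw [Nat.mul_div_cancel' this.two_dvd]
        rfl
      rw [c1]
      constructor
      · nlinarith [h1.1]
      · nlinarith [h1.2]

theorem ex_le (m k : ℕ) : 8 * ex m k ≤ 4 * (m + k).choose 3 + (m + k - 1) ^ 2 := by
  refine le_trans ?_ (ex_bounds (m + k)).1
  apply Nat.mul_le_mul_left
  rw [ex]
  exact sum_le_sum_of_subset (range_subset_range.2 (by omega))

/-- **Main theorem.**
(1) A two-coloured 3-graph with the sparse pair condition has at most `ex |A| |V \ A|` edges.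
(2) The sparse pair condition holds when there is no closed alternating tight walk, and
together with two-colouredness it implies that there is no `K_4^(3)`.
(3) The bound is attained for all class sizes, even without closed alternating tight walks.
(4) `ex m k` is at most `C(n,3)/2 + (n-1)^2/8` for `n = m + k`, and at least `C(n,3)/2` for the
balanced partition. -/
theorem result :
    (∀ (V : Type) [Fintype V] [DecidableEq V] (A : Finset V) (H : Finset (Finset V)),
      TwoColoured A H → SparsePairs A H → H.card ≤ ex A.card Aᶜ.card ∧ K43Free H) ∧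
    (∀ (V : Type) [Fintype V] [DecidableEq V] (A : Finset V) (H : Finset (Finset V)),
      NoClosedAltWalk A H → SparsePairs A H) ∧
    (∀ m k : ℕ, ∃ (A : Finset (Fin m ⊕ Fin k)) (H : Finset (Finset (Fin m ⊕ Fin k))),
      A.card = m ∧ Aᶜ.card = k ∧ TwoColoured A H ∧ NoClosedAltWalk A H ∧ H.card = ex m k) ∧
    (∀ m k : ℕ, 8 * ex m k ≤ 4 * (m + k).choose 3 + (m + k - 1) ^ 2) ∧
    (∀ n : ℕ, 4 * n.choose 3 ≤ 8 * ex (n / 2) (n - n / 2)) := by
  refine ⟨?_, ?_, ?_, ex_le, ?_⟩
  · intro V _ _ A H hT hS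
    exact ⟨Pool.Agent.H67.TCT.upper A H hT hS, k43Free_of_sparse A H hT hS⟩
  · intro V _ _ A H hW
    exact sparse_of_noWalk A H hW
  · intro m k
    exact ⟨Pool.Agent.H67.TCT.conA m k, Pool.Agent.H67.TCT.conH m k,
      Pool.Agent.H67.TCT.card_conA m k, Pool.Agent.H67.TCT.card_conA_compl m k,
      Pool.Agent.H67.TCT.conH_twoColoured m k, Pool.Agent.H67.TCT.conH_noWalk m k,
      Pool.Agent.H67.TCT.card_conH m k⟩
  · intro n
    have h := (ex_bounds n).2
    have e1 : n / 2 + (n - n / 2) = n := by omega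
    have e2 : min (n / 2) (n - n / 2) = n / 2 := by omega
    rw [ex, e1, e2]
    exact h

end Pool.Agent.Results.MP_466853_co.AlternatingWalks
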