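import Pool.Agent.H70.RC.All

/-!
# Turán's (3,4)-problem: the densities converge at the exact rate `1 / n`

Let `cov r n` be the least number of triples of `n` points such that every `r` points contain one of the triples
(`r = 4`: Turán's problem, `cov 4 n = t(n)`). It is known that `cov r n / C(n,3)` is non-decreasing and that its limit
`ρ` exists; `ρ` is not known for any `r ≥ 4`. It is proved that for every `r ≥ 4` there is a constant `c > 0` with

  `ρ - 11 / n ≤ cov r n / C(n,3) ≤ ρ - c / n`   for all `n ≥ 3`,

so `cov r n = ρ C(n,3) - Θ(n²)`: the densities converge at the exact rate `1 / n`, whatever the value of `ρ` and whatever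
the extremal configurations are. (The first inequality is the well-known one from blow-ups; the second one is new.) The
same is proved for every class of 3-graphs which is closed under preimages (blow-ups and induced subgraphs) and whose
maximum density tends to a limit in `(0, 1)`.

Proof. Let `H` be an extremal 3-graph on `N` vertices, `N` much larger than `n`, and let `p` be its density.

(A) If the codegrees of `H` have variance at least a constant for all large `N`: take `n - m` random vertices of `H`,
`m` of order `√n`. The numbers of pairs of these vertices which form an edge with `v` differ by order `n^{3/2}` for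
different `v` (Khinchin's inequality), so `m` copies of the best vertex `v` gain `m n^{3/2}`, of order `n²`, and the
loss is `O(m² n)`.

(B) If the variance of the codegrees is arbitrarily small for some large `N`: take random vertices `a_i`, `b_j`
(`i, j ≤ k`, `k` about `n/3`), with alternatives `a_i'`, `b_j'`, put
`u(v) = k⁻¹ ∑ h(a_i - a_i', b_j - b_j', v)` with `h` the edge indicator (multilinear notation), which is of order one by
the assumption, and choose the remaining vertices independently with density `1 + g`,
`g(v) = E_w sin(θ (u(v) - u(w)))`. The triples `a_i b_j y` gain `c θ n²` in total. All terms with an odd number of `g`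
vanish by exchanging all `b_j`, `b_j'` or all `a_i`, `a_i'`. The terms with two `g` and `a_i` are `O(θ² / k)` each: exchange
`a_i` with `a_i'`, use the addition formula, and the fact that the average of `h(a, v, w)` over `a` is the codegree, which
is nearly constant. So the loss is `O(θ² n²)`, and `θ` is small.

In both cases one gets a 3-graph of the class with `n` vertices and at least `p C(n,3) + c n²` edges.

Parts of the formalisation are due to helper215 (Rademacher sums), helper734 (random blow-ups), helper680 (degrees),
helper645 (choice of parameters), helper181 (classes), helper344 (`K_r^3`), helper825 (case A), helper963 (a moment).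
-/

set_option autoImplicit false
open Finset Filter Topology

namespace Pool.Agent.Results.MP_466853_co.ExactRate

/-- The least number of triples of `n` points such that every `r` points contain one of the triples. For `r = 4` this
is Turán's `t(n)`. -/
noncomputable def cov (r n : ℕ) : ℕ :=
  sInf {m : ℕ | ∃ T : Finset (Finset (Fin n)), (∀ e ∈ T, e.card = 3) ∧
    (∀ S : Finset (Fin n), S.card = r → ∃ e ∈ T, e ⊆ S) ∧ T.card = m}

/-- The preimage of a 3-graph under a map: the triples which are mapped onto an edge. -/
def pull {n m : ℕ} (H : Finset (Finset (Fin n))) (φ : Fin m → Fin n) : Finset (Finset (Fin m)) :=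
  ((univ : Finset (Fin m)).powersetCard 3).filter fun e => e.image φ ∈ H

/-- `P` is a class of 3-graphs which is closed under preimages. -/
def Closed (P : ∀ n : ℕ, Finset (Finset (Fin n)) → Prop) : Prop :=
  (∀ (n : ℕ) (H : Finset (Finset (Fin n))), P n H → ∀ e ∈ H, e.card = 3) ∧
  ∀ (n m : ℕ) (φ : Fin m → Fin n) (H : Finset (Finset (Fin n))), P n H → P m (pull H φ)

/-- The maximum number of edges of a 3-graph of the class `P` on `n` vertices. -/
noncomputable def ex (P : ∀ n : ℕ, Finset (Finset (Fin n)) → Prop) (n : ℕ) : ℕ :=
  sSup {m : ℕ | ∃ H : Finset (Finset (Fin n)), P n H ∧ H.card = m}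

/-- **Main result.** (1) For every `r ≥ 4` the limit `ρ ∈ (0, 1)` of `cov r n / C(n,3)` exists and there is `c > 0` with
`ρ - 11 / n ≤ cov r n / C(n,3) ≤ ρ - c / n` for all `n ≥ 3`. (2) For every class of 3-graphs closed under preimages
whose maximum density tends to a limit `a ∈ (0, 1)` there is `c > 0` with `a + c / n ≤ ex P n / C(n,3) ≤ a + 11 / n` for
all `n ≥ 3`. -/
theorem result :
    (∀ r : ℕ, 4 ≤ r → ∃ ρ : ℝ, 0 < ρ ∧ ρ < 1 ∧
      Tendsto (fun n : ℕ => (cov r n : ℝ) / (n.choose 3 : ℝ)) atTop (𝓝 ρ) ∧
      ∃ c : ℝ, 0 < c ∧ ∀ n : ℕ, 3 ≤ n →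
        ρ - 11 / n ≤ (cov r n : ℝ) / (n.choose 3 : ℝ) ∧ (cov r n : ℝ) / (n.choose 3 : ℝ) ≤ ρ - c / n) ∧
    (∀ P : (∀ n : ℕ, Finset (Finset (Fin n)) → Prop), Closed P → ∀ a : ℝ, 0 < a → a < 1 →
      Tendsto (fun n : ℕ => (ex P n : ℝ) / (n.choose 3 : ℝ)) atTop (𝓝 a) →
      ∃ c : ℝ, 0 < c ∧ ∀ n : ℕ, 3 ≤ n →
        a + c / n ≤ (ex P n : ℝ) / (n.choose 3 : ℝ) ∧ (ex P n : ℝ) / (n.choose 3 : ℝ) ≤ a + 11 / n) := by
  refine ⟨?_, ?_⟩
  · intro r hr
    obtain ⟨hcls, a, ha0, ha1, hlim⟩ := Pool.Agent.H70.RC.KR.kr r hr
    obtain ⟨c, hc, hmain⟩ := Pool.Agent.H70.RC.main_cls _ hcls a ha0 ha1 hlim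
    have hcov : ∀ n : ℕ, 3 ≤ n → (cov r n : ℝ) / (n.choose 3 : ℝ)
        = 1 - (Pool.Agent.H70.RC.exP (Pool.Agent.H70.RC.Free r) n : ℝ) / (n.choose 3 : ℝ) := by
      intro n hn
      have h1 : cov r n + Pool.Agent.H70.RC.exP (Pool.Agent.H70.RC.Free r) n = n.choose 3 :=
        Pool.Agent.H70.RC.KR.cov r n (by omega)
      have h2 : (0 : ℝ) < (n.choose 3 : ℝ) := by exact_mod_cast Nat.choose_pos hn
      have h3 : (cov r n : ℝ) + Pool.Agent.H70.RC.exP (Pool.Agent.H70.RC.Free r) n = (n.choose 3 : ℝ) := by
        exact_mod_cast h1
      rw [eq_sub_iff_add_eq, ← add_div, h3, div_self h2.ne']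
    refine ⟨1 - a, by linarith, by linarith, ?_, c, hc, ?_⟩
    · have h1 := hlim.const_sub 1
      refine h1.congr' ?_
      filter_upwards [eventually_ge_atTop 3] with n hn
      exact (hcov n hn).symm
    · intro n hn
      obtain ⟨h1, h2⟩ := hmain n hn
      rw [hcov n hn]
      constructor <;> linarith
  · intro P hP a ha0 ha1 hlim
    exact Pool.Agent.H70.RC.main_cls P ⟨hP.1, hP.2⟩ a ha0 ha1 hlim

end Pool.Agent.Results.MP_466853_co.ExactRate
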