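import Pool.Agent.H70.LO.ExchNear

/-!
# Exchange between the links of an extremal `K_4^3`-free 3-graph

The extremal `K_4^3`-free 3-graphs are not known (Turán's problem), and among the candidates there are many different
ones. It is proved that all of them have the following exchange property. Let `L(u)`, `L(v)` be the link graphs of ANY
two vertices of an extremal `K_4^3`-free 3-graph on `n` vertices. Then all but at most `n` of the pairs in `L(u)` but not
in `L(v)` can be matched with different pairs in `L(v)` but not in `L(u)` such that matched pairs have a common vertex.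
Equivalently (Hall), for every set `X` of vertices the number of pairs inside `X` which are in `L(u)` only is at most the
number of pairs that meet `X` and are in `L(v)` only, plus `n`. The same is true in nearly extremal 3-graphs, for almost
all `v`, all `u`, and with the error `θ n²`.

Proof. For any `X` let `G` consist of the pairs of `L(u)` inside `X`, the pairs of `L(v)` outside `X`, and the pairs in
both links. A triangle of `G` has two vertices in `X` or two vertices outside `X`, so it is a triangle of `L(u)` or of
`L(v)`; so it is not an edge of the 3-graph. Hence every vertex, or every vertex of a set of vertices, can be given the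
link `G`, and `G` cannot have many more pairs than `L(v)`. The matching is obtained from Hall's theorem.
-/

set_option autoImplicit false
open Finset

namespace Pool.Agent.Results.MP_466853_co.LinkExchange

/-- `H` is a 3-graph on `Fin n` without `r` vertices all of whose triples are edges. -/
def Free (r : ℕ) {n : ℕ} (H : Finset (Finset (Fin n))) : Prop :=
  (∀ e ∈ H, e.card = 3) ∧ ∀ S : Finset (Fin n), S.card = r → ∃ e ⊆ S, e.card = 3 ∧ e ∉ H

/-- The maximum number of edges of a `K_r^3`-free 3-graph on `n` vertices. -/
noncomputable def ex (r n : ℕ) : ℕ :=
  sSup {m : ℕ | ∃ H : Finset (Finset (Fin n)), Free r H ∧ H.card = m}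

/-- the link graph of a vertex: the pairs which form an edge with `u` -/
def link {n : ℕ} (H : Finset (Finset (Fin n))) (u : Fin n) : Finset (Finset (Fin n)) :=
  ((univ : Finset (Fin n)).powersetCard 2).filter fun p => u ∉ p ∧ insert u p ∈ H

/-- All but at most `m` of the pairs in the link of `u` but not in the link of `v` are matched with different pairs in
the link of `v` but not in the link of `u`, and matched pairs have a common vertex. -/
def Exchange {n : ℕ} (H : Finset (Finset (Fin n))) (u v : Fin n) (m : ℝ) : Prop :=
  ∃ F ⊆ link H u \ link H v, (F.card : ℝ) ≤ m ∧ ∃ f : Finset (Fin n) → Finset (Fin n),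
    Set.InjOn f ((link H u \ link H v) \ F : Finset (Finset (Fin n))) ∧
    ∀ p ∈ (link H u \ link H v) \ F, f p ∈ link H v \ link H u ∧ ¬ Disjoint p (f p)

/-- **Main result.** (1) Let `H` be a `K_4^3`-free 3-graph on `n` vertices with the maximum number of edges, and `u`, `v`
any two vertices. All but at most `n` of the pairs in the link of `u` only can be matched with different pairs in the
link of `v` only, such that matched pairs meet; and for every set `X`, at most `n` more pairs inside `X` are in the link
of `u` only than there are pairs that meet `X` in the link of `v` only. (2) If `H` has at least `ex 4 n - θ² n³ / 8`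
edges, `θ ≤ 1/4`, `n ≥ 4/θ`, then for all but at most `θ n` vertices `v` and for all `u` there is such a matching of all
but at most `θ n²` pairs. -/
theorem result :
    (∀ (n : ℕ) (H : Finset (Finset (Fin n))), Free 4 H → H.card = ex 4 n → ∀ u v : Fin n,
      Exchange H u v n ∧
      ∀ X : Finset (Fin n), ((link H u \ link H v).filter fun p => p ⊆ X).card
        ≤ ((link H v \ link H u).filter fun p => ¬ Disjoint p X).card + n) ∧
    (∀ (n : ℕ) (θ : ℝ), 0 < θ → θ ≤ 1 / 4 → 4 / θ ≤ n → ∀ H : Finset (Finset (Fin n)), Free 4 H →
      (ex 4 n : ℝ) ≤ H.card + θ ^ 2 * (n : ℝ) ^ 3 / 8 →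
        ∃ B : Finset (Fin n), (B.card : ℝ) ≤ θ * n ∧ ∀ v ∉ B, ∀ u : Fin n, Exchange H u v (θ * (n : ℝ) ^ 2)) := by
  refine ⟨?_, ?_⟩
  · intro n H hH he u v
    obtain ⟨h1, F, hF, hFc, hf⟩ := Pool.Agent.H70.LO.exch_exact hH he u v
    exact ⟨⟨F, hF, by exact_mod_cast hFc, hf⟩, h1⟩
  · intro n θ h0 h1 hn H hH he
    exact Pool.Agent.H70.LO.exch_near h0 h1 hn hH he

end Pool.Agent.Results.MP_466853_co.LinkExchange
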