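import Pool.Agent.H70.LO.Indep

/-!
# In extremal `K_r^3`-free 3-graphs the links and the codegree sets are largest possible

Turán's problem asks for the maximum number `ex r n` of edges of a 3-graph on `n` vertices without `K_r^3`; the
extremal 3-graphs are not known (`r = 4`: Turán's conjecture), and there are many candidates. Here necessary conditions
are proved which hold in all extremal and in all nearly extremal `K_r^3`-free 3-graphs `H`, for every `r`.

* A graph `G` on the vertices of `H` is compatible with `H` if no `r - 1` vertices form a clique of `G` and a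
  `K_{r-1}^3` of `H` (for `r = 4`: if no triangle of `G` is an edge of `H`). All link graphs of vertices are compatible.
  In an extremal 3-graph the link of EVERY vertex `u` is a largest compatible graph on the other vertices.
* A set `W` is admissible for `u`, `v` if no `r - 2` vertices of `W` have all their pairs in both links and all their
  triples in `H` (for `r = 4`: if `W` is an independent set of the intersection of the link graphs of `u` and of `v`).
  The set of the vertices which form edges with `u`, `v` is admissible. In an extremal 3-graph, for every vertex `u` and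
  almost all `v`, this set is, up to `o(n)` vertices, a largest admissible set: for `r = 4` it is almost a maximum
  independent set of the intersection of the two links.
* Hence, for `r = 4`, in every link graph `L(u)` almost all vertices have degree at least the independence number of
  `L(u)`, minus `o(n)`; and for every `r` and every set `I` of vertices without `K_{r-1}^3`, each `u ∈ I` has codegree at
  least `|I| - o(n)` with almost all vertices.

The second condition is derived from the first one: a random set of vertices gets new neighbourhoods in the link of `u`.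
The first one holds because the vertices of any set `A` can be given any compatible graph as their common link.
-/

set_option autoImplicit false
open Finset

namespace Pool.Agent.Results.MP_466853_co.MaximumLinks

/-- `H` is a 3-graph on `Fin n` without `r` vertices all of whose triples are edges. -/
def Free (r : ℕ) {n : ℕ} (H : Finset (Finset (Fin n))) : Prop :=
  (∀ e ∈ H, e.card = 3) ∧ ∀ S : Finset (Fin n), S.card = r → ∃ e ⊆ S, e.card = 3 ∧ e ∉ H

/-- The maximum number of edges of a `K_r^3`-free 3-graph on `n` vertices. -/
noncomputable def ex (r n : ℕ) : ℕ :=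
  sSup {m : ℕ | ∃ H : Finset (Finset (Fin n)), Free r H ∧ H.card = m}

/-- the link graph of a vertex: the pairs which form an edge with `u` -/
def link {n : ℕ} (H : Finset (Finset (Fin n))) (u : Fin n) : Finset (Finset (Fin n)) :=
  ((univ : Finset (Fin n)).powersetCard 2).filter fun p => u ∉ p ∧ insert u p ∈ H

/-- the vertices which form an edge with `u` and `v` -/
def nbr {n : ℕ} (H : Finset (Finset (Fin n))) (u v : Fin n) : Finset (Fin n) :=
  univ.filter fun w => w ≠ u ∧ w ≠ v ∧ ({u, v, w} : Finset (Fin n)) ∈ H

/-- The graph `G` is compatible with `H`: no `r - 1` vertices form a clique of `G` and have all their triples in `H`. -/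
def Compatible (r : ℕ) {n : ℕ} (H G : Finset (Finset (Fin n))) : Prop :=
  (∀ p ∈ G, p.card = 2) ∧ ∀ S : Finset (Fin n), S.card + 1 = r →
    (∃ p ⊆ S, p.card = 2 ∧ p ∉ G) ∨ ∃ e ⊆ S, e.card = 3 ∧ e ∉ H

/-- The set `W` is admissible for `u`, `v`: it does not contain `u`, `v`, and there are no `r - 2` vertices in `W` all of
whose pairs are in both links and all of whose triples are in `H`. -/
def Admissible (r : ℕ) {n : ℕ} (H : Finset (Finset (Fin n))) (u v : Fin n) (W : Finset (Fin n)) : Prop :=
  u ∉ W ∧ v ∉ W ∧ ∀ S ⊆ W, S.card + 2 = r →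
    (∃ p ⊆ S, p.card = 2 ∧ (insert u p ∉ H ∨ insert v p ∉ H)) ∨ ∃ e ⊆ S, e.card = 3 ∧ e ∉ H

/-- **Main result.** Let `r ≥ 3` and let `H` be a `K_r^3`-free 3-graph on `n` vertices. (0) The links are compatible, the
codegree sets `nbr H u v` are admissible and, for fixed `u`, their sizes have the sum `2 |link H u|`. (1) If `H` has
`ex r n` edges, then for every vertex `u`: the link of `u` has at least as many pairs as any compatible graph has
outside `u`; the sum of the sizes of any admissible sets `W v` is at most `2 |link H u| + 3 n^{3/2}`; and for every set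
`I` without `u` such that no `r - 2` vertices of `I` form a `K_{r-1}^3` with `u`, the sum over `v` of the positive parts
of `|I| - 1 - |nbr H u v|` is at most `3 n^{3/2}`. (2) If `H` has at least `ex r n - θ² n³ / 8` edges (`θ ≤ 1/4`,
`n ≥ 4/θ`), then all but `θ n` vertices `u` have the first two properties with the errors `θ n²` and `3 √θ n²`. -/
theorem result :
    (∀ r n : ℕ, 3 ≤ r → ∀ H : Finset (Finset (Fin n)), Free r H → ∀ u : Fin n,
      Compatible r H (link H u) ∧ (∀ v, v ≠ u → Admissible r H u v (nbr H u v)) ∧
        ∑ v ∈ univ.erase u, (nbr H u v).card = 2 * (link H u).card) ∧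
    (∀ r n : ℕ, 3 ≤ r → ∀ H : Finset (Finset (Fin n)), Free r H → H.card = ex r n → ∀ u : Fin n,
      (∀ G, Compatible r H G → (G.filter fun p => u ∉ p).card ≤ (link H u).card) ∧
      (∀ W : Fin n → Finset (Fin n), (∀ v, v ≠ u → Admissible r H u v (W v)) →
        ∑ v ∈ univ.erase u, ((W v).card : ℝ) ≤ 2 * ((link H u).card : ℝ) + 3 * (n : ℝ) * √(n : ℝ)) ∧
      (∀ I : Finset (Fin n), u ∉ I →
        (∀ S ⊆ I, S.card + 2 = r → ∃ e ⊆ insert u S, e.card = 3 ∧ e ∉ H) →
        ∑ v ∈ univ.erase u, max ((I.card : ℝ) - 1 - (nbr H u v).card) 0 ≤ 3 * (n : ℝ) * √(n : ℝ))) ∧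
    (∀ r n : ℕ, 3 ≤ r → ∀ θ : ℝ, 0 < θ → θ ≤ 1 / 4 → 4 / θ ≤ n → ∀ H : Finset (Finset (Fin n)), Free r H →
      (ex r n : ℝ) ≤ H.card + θ ^ 2 * (n : ℝ) ^ 3 / 8 →
        ∃ B : Finset (Fin n), (B.card : ℝ) ≤ θ * n ∧ ∀ u ∉ B,
          (∀ G, Compatible r H G → (G.card : ℝ) ≤ (link H u).card + θ * (n : ℝ) ^ 2) ∧
          (∀ W : Fin n → Finset (Fin n), (∀ v, v ≠ u → Admissible r H u v (W v)) →
            ∑ v ∈ univ.erase u, ((W v).card : ℝ) ≤ 2 * ((link H u).card : ℝ) + 3 * √θ * (n : ℝ) ^ 2)) := by
  refine ⟨?_, ?_, ?_⟩
  · intro r n hr H hH u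
    exact ⟨Pool.Agent.H70.LO.compatible_link hr hH u, fun v hv => Pool.Agent.H70.LO.admissible_nbr hH hv,
      Pool.Agent.H70.LO.sum_nbr u⟩
  · intro r n hr H hH he u
    exact ⟨fun G hG => Pool.Agent.H70.LO.exact_link hr hH he hG u,
      fun W hW => Pool.Agent.H70.LO.exact_main hr hH he u hW,
      fun I hu hI => Pool.Agent.H70.LO.indep_main hr hH he hu hI⟩
  · intro r n hr θ h0 h1 hn H hH he
    exact Pool.Agent.H70.LO.near_main hr h0 h1 hn hH he

end Pool.Agent.Results.MP_466853_co.MaximumLinks
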